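import Pool.Agent.W670.ML.Defs

set_option autoImplicit false

namespace Pool.Agent.W382.ML

open NumberField Pool.Agent.W670.ML

theorem mem_le (Ω : Type) [Field Ω] [Algebra ℚ Ω] (K : IntermediateField ℚ Ω)
    (L : IntermediateField K Ω) : K ≤ L.restrictScalars ℚ := by
  intro x hx
  rw [IntermediateField.mem_restrictScalars]
  exact L.algebraMap_mem ⟨x, hx⟩

theorem discr_eq (Ω : Type) [Field Ω] [Algebra ℚ Ω] (K : IntermediateField ℚ Ω)
    (L : IntermediateField K Ω) (hL : NumberField L) :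
    ∃ _ : NumberField (L.restrictScalars ℚ), discr (L.restrictScalars ℚ) = discr L := by
  let e : L ≃+* (L.restrictScalars ℚ) := 
    { toFun := fun x => ⟨x.1, x.2⟩
      invFun := fun x => ⟨x.1, x.2⟩
      left_inv := fun x => rfl
      right_inv := fun x => rfl
      map_mul' := fun x y => rfl
      map_add' := fun x y => rfl }
  have hM : NumberField (L.restrictScalars ℚ) := NumberField.of_ringEquiv L _ e
  exact ⟨hM, (discr_eq_discr_of_ringEquiv _ e).symm⟩

theorem isAC : IsAlgClosure ℚ (AlgebraicClosure ℚ) := by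
  have h : ∀ (k : Type) [Field k], IsAlgClosure k (AlgebraicClosure k) :=
    fun k _ => inferInstance
  have h2 := h ℚ
  have e : (AlgebraicClosure.instAlgebra ℚ : Algebra ℚ (AlgebraicClosure ℚ)) =
    DivisionRing.toRatAlgebra := Subsingleton.elim _ _
  rw [← e]
  exact h2

theorem tow (h1 : S_IC) (h2 : S_MI) (_h3 : S_DI) (h4 : S_AB) (h5 : S_UB) (h6 : S_SF) : S_TOW := by
  intro hUp d n G hd hn hG m hm ε hε
  obtain ⟨hm1, hmn, hmG⟩ := (h2 n G hn hG).2 m hm
  have hNpos : 0 < n * d := Nat.mul_pos (by omega) (by omega)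
  have hN2 : 2 ≤ n * d := le_trans hn (Nat.le_mul_of_pos_right n (by omega))
  obtain ⟨c, hc, hcY⟩ := h5 hUp (n * d) m hN2 hm1 ε hε
  obtain ⟨C, hC⟩ := h6 (n * d)
  refine ⟨(C + 1) * c, by positivity, ?_⟩
  intro X hX
  have hAC := isAC
  have hAA : Algebra.IsAlgebraic ℚ (AlgebraicClosure ℚ) := hAC.isAlgebraic
  -- properties of the towers
  have key : ∀ p ∈ towers d n G X,
      Module.finrank ℚ (p.2.restrictScalars ℚ) = n * d ∧
      (∃ _ : NumberField (p.2.restrictScalars ℚ),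
        ((discr (p.2.restrictScalars ℚ)).natAbs : ℝ) ≤ X) ∧
      ∀ H : Subgroup (Equiv.Perm (Fin (n * d))),
        HasGroup ℚ (AlgebraicClosure ℚ) (n * d) H (p.2.restrictScalars ℚ) →
        ∀ h ∈ H, h ≠ 1 → m ≤ ind h := by
    rintro ⟨K, L⟩ ⟨hK, hL, hNF, hdisc⟩
    dsimp only at hK hL hNF hdisc ⊢
    have hfd : FiniteDimensional ℚ K := Module.finite_of_finrank_pos (by omega)
    have : NumberField K := ⟨⟩
    have : IsAlgClosure K (AlgebraicClosure ℚ) :=
      ⟨inferInstance, Algebra.IsAlgebraic.tower_top (K := ℚ) K⟩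
    refine ⟨?_, ?_, ?_⟩
    · have h := Module.finrank_mul_finrank ℚ K L
      rw [hK, hL.1] at h
      have h' : Module.finrank ℚ (L.restrictScalars ℚ) = Module.finrank ℚ L := rfl
      rw [h', ← h, mul_comm]
    · obtain ⟨hM, hMd⟩ := discr_eq (AlgebraicClosure ℚ) K L hNF
      exact ⟨hM, by rw [hMd]; exact hdisc⟩
    · intro H hH
      exact h1 K (AlgebraicClosure ℚ) n (n * d) m G H L hL hH hmn hmG
  set S : Set (IntermediateField ℚ (AlgebraicClosure ℚ)) :=
    (fun p : (Σ K : IntermediateField ℚ (AlgebraicClosure ℚ),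
      IntermediateField K (AlgebraicClosure ℚ)) => p.2.restrictScalars ℚ) '' towers d n G X with hS
  obtain ⟨hSf, hSc⟩ := h4 (n * d) m (AlgebraicClosure ℚ) hNpos S X (by
    rintro M ⟨p, hp, rfl⟩
    exact key p hp)
  have hSf' := hSf
  have hdeg : ∀ M ∈ S, Module.finrank ℚ M = n * d := by
    rintro M ⟨p, hp, rfl⟩
    exact (key p hp).1
  -- the pairs
  set T : Set (IntermediateField ℚ (AlgebraicClosure ℚ) × IntermediateField ℚ (AlgebraicClosure ℚ)) :=
    ⋃ M ∈ S, (fun K => (M, K)) '' {K : IntermediateField ℚ (AlgebraicClosure ℚ) | K ≤ M} with hT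
  have hTf : T.Finite := by
    refine hSf.biUnion ?_
    intro M hM
    exact ((hC (AlgebraicClosure ℚ) M (hdeg M hM) hNpos).1).image _
  have hTc : T.ncard ≤ S.ncard * C := by
    classical
    have h : T = ↑(hSf.toFinset.biUnion (fun M =>
        if hM : {K : IntermediateField ℚ (AlgebraicClosure ℚ) | K ≤ M}.Finite then
          (hM.image (fun K => (M, K))).toFinset else ∅)) := by
      ext ⟨A, B⟩
      simp only [hT, Set.mem_iUnion, Finset.coe_biUnion, Set.Finite.coe_toFinset]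
      constructor
      · rintro ⟨M, hM, hx⟩
        refine ⟨M, hM, ?_⟩
        rw [dif_pos (hC (AlgebraicClosure ℚ) M (hdeg M hM) hNpos).1]
        simpa using hx
      · rintro ⟨M, hM, hx⟩
        refine ⟨M, hM, ?_⟩
        rw [dif_pos (hC (AlgebraicClosure ℚ) M (hdeg M hM) hNpos).1] at hx
        simpa using hx
    rw [h, Set.ncard_coe_finset, Set.ncard_eq_toFinset_card S hSf]
    refine Finset.card_biUnion_le_card_mul _ _ _ ?_
    intro M hM
    have hM' : M ∈ S := by simpa using hM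
    have hfin := (hC (AlgebraicClosure ℚ) M (hdeg M hM') hNpos)
    rw [dif_pos hfin.1, ← Set.ncard_eq_toFinset_card _ (hfin.1.image _)]
    exact (Set.ncard_image_le hfin.1).trans hfin.2
  -- the injection
  have hmaps : Set.MapsTo (fun p : (Σ K : IntermediateField ℚ (AlgebraicClosure ℚ),
      IntermediateField K (AlgebraicClosure ℚ)) => (p.2.restrictScalars ℚ, p.1))
      (towers d n G X) T := by
    intro p hp
    simp only [hT, Set.mem_iUnion]
    refine ⟨p.2.restrictScalars ℚ, ⟨p, hp, rfl⟩, ⟨p.1, ?_, rfl⟩⟩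
    exact mem_le _ p.1 p.2
  have hinj : Set.InjOn (fun p : (Σ K : IntermediateField ℚ (AlgebraicClosure ℚ),
      IntermediateField K (AlgebraicClosure ℚ)) => (p.2.restrictScalars ℚ, p.1))
      (towers d n G X) := by
    rintro ⟨K, L⟩ _ ⟨K', L'⟩ _ h
    simp only [Prod.mk.injEq] at h
    obtain ⟨hL, hK⟩ := h
    subst hK
    have : L = L' := IntermediateField.restrictScalars_injective ℚ hL
    rw [this]
  refine ⟨Set.Finite.of_injOn hmaps hinj hTf, ?_⟩
  have hcard : (towers d n G X).ncard ≤ S.ncard * C :=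
    (Set.ncard_le_ncard_of_injOn _ hmaps hinj hTf).trans hTc
  have hsum := hcY X hX
  have hSr : (S.ncard : ℝ) ≤ c * X ^ ((1 : ℝ) / (m : ℝ) + ε) :=
    le_trans (by exact_mod_cast hSc) hsum
  have hr : ((towers d n G X).ncard : ℝ) ≤ (S.ncard : ℝ) * (C : ℝ) := by exact_mod_cast hcard
  have hpos : 0 ≤ X ^ ((1 : ℝ) / (m : ℝ) + ε) := Real.rpow_nonneg hX.le _
  calc ((towers d n G X).ncard : ℝ) ≤ (S.ncard : ℝ) * (C : ℝ) := hr
    _ ≤ (c * X ^ ((1 : ℝ) / (m : ℝ) + ε)) * (C : ℝ) := by gcongr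
    _ ≤ (C + 1) * c * X ^ ((1 : ℝ) / (m : ℝ) + ε) := by nlinarith [mul_nonneg hc.le hpos]

end Pool.Agent.W382.ML
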